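import Mathlib
import Pool.Agent.U307.RAD.Stm

/-!
Project RAD, package NUM: numerical inequalities.
-/

set_option autoImplicit false

namespace Pool.Agent.U723.RAD.NUM

open Pool.Agent.U307.RAD Real

/-- the sum of `2 / (2 k + 1)` -/
lemma harm (n : ℕ) (hn : 1 ≤ n) :
    log 4 + 3 / 4 * log n ≤ ∑ k ∈ Finset.range n, (2 : ℝ) / (2 * k + 1) := by
  have l2 : log 4 = 2 * log 2 := by
    rw [show (4 : ℝ) = 2 ^ 2 by norm_num, Real.log_pow]; norm_num
  have l3 := Real.log_two_lt_d9
  induction n, hn using Nat.le_induction with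
  | base => simp [l2]; linarith
  | succ n hn ih =>
    rw [Finset.sum_range_succ]
    have hn0 : (1 : ℝ) ≤ n := by exact_mod_cast hn
    rcases Nat.lt_or_ge n 2 with h | h
    · have : n = 1 := by omega
      subst this
      norm_num at ih ⊢
      linarith
    · have h2 : (2 : ℝ) ≤ n := by exact_mod_cast h
      have h3 : log ((n + 1 : ℕ) : ℝ) - log n ≤ 1 / n := by
        rw [← Real.log_div (by positivity) (by positivity)]
        have := Real.log_le_sub_one_of_pos (show (0 : ℝ) < ((n + 1 : ℕ) : ℝ) / n by positivity)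
        refine this.trans (le_of_eq ?_)
        push_cast
        field_simp
        ring
      have h4 : (3 : ℝ) / 4 * (1 / n) ≤ 2 / (2 * n + 1) := by
        rw [div_mul_div_comm, div_le_div_iff₀ (by positivity) (by positivity)]
        linarith
      linarith

/-- one factor -/
lemma fac (t : ℝ) (ht : 0 < t) (ht2 : t ≤ 1 / 2) (k : ℕ) :
    (1 - 2 * t) * (2 / (2 * k + 1)) ≤ log ((1 - t + k) / (t + k)) := by
  have hk : (0 : ℝ) ≤ k := Nat.cast_nonneg k
  have h := Real.le_log_one_add_of_nonneg (x := (1 - 2 * t) / (t + k)) (by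
    apply div_nonneg <;> linarith)
  have e1 : 1 + (1 - 2 * t) / (t + k) = (1 - t + k) / (t + k) := by
    field_simp; ring
  have e2 : 2 * ((1 - 2 * t) / (t + k)) / ((1 - 2 * t) / (t + k) + 2) =
      (1 - 2 * t) * (2 / (2 * k + 1)) := by
    have h1 : (t + k) ≠ 0 := by linarith
    have h2 : (1 - 2 * t) / (t + k) + 2 = (2 * k + 1) / (t + k) := by
      field_simp; ring
    rw [h2]
    field_simp
  rw [e1, e2] at h
  exact h

lemma prod (t : ℝ) (ht : 0 < t) (ht2 : t ≤ 1 / 2) (n : ℕ) :
    exp ((1 - 2 * t) * ∑ k ∈ Finset.range n, (2 : ℝ) / (2 * k + 1)) ≤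
      (ascPochhammer ℝ n).eval (1 - t) / (ascPochhammer ℝ n).eval t := by
  induction n with
  | zero => simp
  | succ n ih =>
    have hn : (0 : ℝ) ≤ n := Nat.cast_nonneg n
    rw [Finset.sum_range_succ, mul_add, Real.exp_add, ascPochhammer_succ_eval, ascPochhammer_succ_eval,
      mul_div_mul_comm]
    have h := fac t ht ht2 n
    have hpos : 0 < (1 - t + n) / (t + n) := by
      apply div_pos <;> linarith
    have h2 : exp ((1 - 2 * t) * (2 / (2 * n + 1))) ≤ (1 - t + n) / (t + n) := by
      rw [← Real.le_log_iff_exp_le hpos]; exact h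
    exact mul_le_mul ih h2 (Real.exp_pos _).le ((Real.exp_pos _).le.trans ih)

theorem t_NUM : S_NUM := by
  intro n p hn hp
  have hp0 : 0 < p := by linarith
  have hn0 : (1 : ℝ) ≤ n := by exact_mod_cast hn
  have hnp : (0 : ℝ) < n := by linarith
  have hs0 : 0 ≤ 1 - 2 / p := by
    rw [sub_nonneg, div_le_one hp0]; exact hp
  have l2 : log 4 = 2 * log 2 := by
    rw [show (4 : ℝ) = 2 ^ 2 by norm_num, Real.log_pow]; norm_num
  have l3 := Real.log_two_lt_d9
  constructor
  · have h1 : (4 : ℝ) ^ (1 - 2 / p) ≤ p - 1 := by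
      have h := Real.le_log_one_add_of_nonneg (x := p - 2) (by linarith)
      have e1 : 1 + (p - 2) = p - 1 := by ring
      have e2 : 2 * (p - 2) / (p - 2 + 2) = 2 * (1 - 2 / p) := by
        rw [sub_add_cancel, mul_div_assoc, sub_div, div_self hp0.ne']
      rw [e1, e2] at h
      rw [Real.rpow_def_of_pos (by norm_num), ← Real.le_log_iff_exp_le (by linarith)]
      refine le_trans ?_ h
      exact mul_le_mul_of_nonneg_right (by linarith) hs0
    have h2 : ((n : ℝ) ^ (3 / 4 : ℝ)) ^ (1 - 2 / p) ≤ (n : ℝ) ^ (1 - 2 / p) := by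
      apply Real.rpow_le_rpow (by positivity) _ hs0
      calc (n : ℝ) ^ (3 / 4 : ℝ) ≤ (n : ℝ) ^ (1 : ℝ) :=
            Real.rpow_le_rpow_of_exponent_le hn0 (by norm_num)
        _ = n := Real.rpow_one _
    rw [Real.mul_rpow (by norm_num) (by positivity), mul_comm]
    exact mul_le_mul h2 h1 (by positivity) (by positivity)
  · have ht2 : 1 / p ≤ 1 / 2 := by
      apply one_div_le_one_div_of_le <;> linarith
    refine le_trans ?_ (prod (1 / p) (by positivity) ht2 n)
    have e1 : 1 - 2 / p = 1 - 2 * (1 / p) := by ring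
    rw [Real.rpow_def_of_pos (by positivity), Real.exp_le_exp, ← e1, mul_comm]
    apply mul_le_mul_of_nonneg_left _ hs0
    rw [Real.log_mul (by norm_num) (by positivity), Real.log_rpow hnp]
    exact harm n hn

end Pool.Agent.U723.RAD.NUM
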